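import Pool.Agent.TH198.AT.Conv

/-!
# The lemma of Latala and Guerra
-/

set_option autoImplicit false

open MeasureTheory ProbabilityTheory Set Filter Topology

namespace Pool.TH70.AT

open Pool.TH198.AT

/-! ### `tanh` -/

theorem tanh_sq_le (x : ℝ) : Real.tanh x ^ 2 ≤ 1 := by
  rw [sq_le_one_iff_abs_le_one, abs_le]
  exact ⟨(Real.neg_one_lt_tanh x).le, (Real.tanh_lt_one x).le⟩

theorem abs_tanh (x : ℝ) : |Real.tanh x| ≤ 1 :=
  abs_le.mpr ⟨(Real.neg_one_lt_tanh x).le, (Real.tanh_lt_one x).le⟩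

theorem hd_tanh (x : ℝ) : HasDerivAt Real.tanh (1 - Real.tanh x ^ 2) x := by
  have hc : Real.cosh x ≠ 0 := (Real.cosh_pos x).ne'
  have h := (Real.hasDerivAt_sinh x).div (Real.hasDerivAt_cosh x) hc
  have h2 : (fun x => Real.sinh x / Real.cosh x) = Real.tanh := by
    funext y; rw [Real.tanh_eq_sinh_div_cosh]
  rw [show (Real.sinh / Real.cosh : ℝ → ℝ) = Real.tanh from h2] at h
  refine h.congr_deriv ?_
  rw [Real.tanh_eq_sinh_div_cosh]
  field_simp

theorem tanh_nonneg {x : ℝ} (hx : 0 ≤ x) : 0 ≤ Real.tanh x := by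
  rw [Real.tanh_eq_sinh_div_cosh]
  exact div_nonneg (Real.sinh_nonneg_iff.2 hx) (Real.cosh_pos x).le

theorem cont_tanh : Continuous Real.tanh := by
  rw [continuous_iff_continuousAt]
  exact fun x => (hd_tanh x).continuousAt

/-- `tanh²` and its derivatives -/
noncomputable def f0' (x : ℝ) : ℝ := Real.tanh x ^ 2
noncomputable def f1' (x : ℝ) : ℝ := 2 * (Real.tanh x * (1 - Real.tanh x ^ 2))
noncomputable def f2' (x : ℝ) : ℝ := 2 * ((1 - Real.tanh x ^ 2) * (1 - 3 * Real.tanh x ^ 2))

theorem hd_f0 (x : ℝ) : HasDerivAt f0' (f1' x) x := by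
  have h := (hd_tanh x).pow 2
  refine HasDerivAt.congr_deriv (f := f0') h ?_
  unfold f1'
  push_cast
  ring

theorem hd_f1 (x : ℝ) : HasDerivAt f1' (f2' x) x := by
  have h := ((hd_tanh x).mul (((hd_tanh x).pow 2).const_sub 1)).const_mul 2
  refine HasDerivAt.congr_deriv (f := f1') h ?_
  unfold f2'
  simp only [Pi.pow_apply]
  push_cast
  ring

theorem cont_f0 : Continuous f0' := cont_tanh.pow 2

theorem cont_f1 : Continuous f1' := by
  unfold f1'
  exact continuous_const.mul (cont_tanh.mul (continuous_const.sub (cont_tanh.pow 2)))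

theorem cont_f2 : Continuous f2' := by
  unfold f2'
  exact continuous_const.mul ((continuous_const.sub (cont_tanh.pow 2)).mul
    (continuous_const.sub (continuous_const.mul (cont_tanh.pow 2))))

theorem abs_f1 (x : ℝ) : |f1' x| ≤ 2 := by
  unfold f1'
  have h1 := abs_tanh x
  have h2 := tanh_sq_le x
  have h3 := sq_nonneg (Real.tanh x)
  rw [abs_mul, abs_mul, abs_of_pos (by norm_num : (0 : ℝ) < 2),
    abs_of_nonneg (by linarith : 0 ≤ 1 - Real.tanh x ^ 2)]
  nlinarith [abs_nonneg (Real.tanh x)]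

theorem abs_f2 (x : ℝ) : |f2' x| ≤ 4 := by
  unfold f2'
  have h2 := tanh_sq_le x
  have h3 := sq_nonneg (Real.tanh x)
  rw [abs_le]
  constructor <;> nlinarith

theorem C2b_f : C2b f0' f1' f2' :=
  ⟨hd_f0, hd_f1, cont_f2, 4, fun x => ⟨(abs_f1 x).trans (by norm_num), abs_f2 x⟩⟩

/-- `y sech² y ≤ tanh y` for `y ≥ 0`, in the even form -/
theorem even_ineq (y : ℝ) : y * Real.tanh y * (1 - Real.tanh y ^ 2) ≤ Real.tanh y ^ 2 ∧
    (y ≠ 0 → y * Real.tanh y * (1 - Real.tanh y ^ 2) < Real.tanh y ^ 2) := by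
  -- for `y > 0`
  have key : ∀ y : ℝ, 0 < y → y * Real.tanh y * (1 - Real.tanh y ^ 2) < Real.tanh y ^ 2 := by
    intro y hy
    have hc : 0 < Real.cosh y := Real.cosh_pos y
    have hs : y < Real.sinh y := Real.self_lt_sinh_iff.2 hy
    have hc1 : 1 ≤ Real.cosh y := Real.one_le_cosh y
    have h1 : 1 - Real.tanh y ^ 2 = 1 / Real.cosh y ^ 2 := by
      rw [Real.tanh_eq_sinh_div_cosh]
      field_simp
      have := Real.cosh_sq y
      linarith
    have h2 : 0 < Real.tanh y := by
      rw [Real.tanh_eq_sinh_div_cosh]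
      exact div_pos (by linarith) hc
    have h3 : y * (1 - Real.tanh y ^ 2) < Real.tanh y := by
      rw [h1, Real.tanh_eq_sinh_div_cosh, mul_one_div, div_lt_div_iff₀ (by positivity) hc]
      have h4 : y * Real.cosh y < Real.sinh y * Real.cosh y := mul_lt_mul_of_pos_right hs hc
      have h5 : Real.sinh y * Real.cosh y ≤ Real.sinh y * Real.cosh y ^ 2 := by
        apply mul_le_mul_of_nonneg_left _ (by linarith : 0 ≤ Real.sinh y)
        nlinarith
      linarith
    nlinarith
  rcases lt_trichotomy y 0 with h | h | h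
  · have := key (-y) (by linarith)
    rw [Real.tanh_neg] at this
    have h2 : y * Real.tanh y * (1 - Real.tanh y ^ 2) < Real.tanh y ^ 2 := by nlinarith
    exact ⟨h2.le, fun _ => h2⟩
  · subst h
    simp
  · exact ⟨(key y h).le, fun _ => key y h⟩

/-! ### Gaussian expectations -/

theorem int_bd {F : ℝ → ℝ} {C : ℝ} (hc : Continuous F) (hb : ∀ z, |F z| ≤ C) :
    Integrable F (gaussianReal 0 1) :=
  Integrable.of_bound hc.aestronglyMeasurable C (Filter.Eventually.of_forall fun z => by
    rw [Real.norm_eq_abs]; exact hb z)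

theorem E1_neg (F : ℝ → ℝ) : E1 (fun z => F (-z)) = E1 F := by
  unfold E1
  have h := gaussianReal_map_neg (μ := 0) (v := 1)
  rw [neg_zero] at h
  conv_rhs => rw [← h]
  exact (integral_map_equiv (MeasurableEquiv.neg ℝ) F).symm

/-- odd functions which are nonnegative on the right: the mean has the sign of `h` -/
theorem odd_nonneg {k : ℝ → ℝ} {C : ℝ} (hc : Continuous k) (hb : ∀ x, |k x| ≤ C)
    (ho : ∀ x, k (-x) = -k x) (hp : ∀ x, 0 ≤ x → 0 ≤ k x) {h σ : ℝ} (hh : 0 ≤ h) (hσ : 0 < σ) :
    0 ≤ E1 (fun z => k (h + σ * z)) := by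
  obtain ⟨c, hcd⟩ : ∃ c : ℝ, c = h / σ := ⟨_, rfl⟩
  have hc0 : 0 ≤ c := by rw [hcd]; positivity
  have e1 : E1 (fun z => k (h + σ * z)) = ∫ u, gaussianPDFReal c 1 u * k (σ * u) := by
    have h1 : gaussianReal c 1 = (gaussianReal 0 1).map (fun z => z + c) := by
      rw [gaussianReal_map_add_const, zero_add]
    have h2 : ∫ u, k (σ * u) ∂(gaussianReal c 1) = E1 (fun z => k (h + σ * z)) := by
      rw [h1, integral_map (by fun_prop) (by
        exact (hc.comp (continuous_const.mul continuous_id)).aestronglyMeasurable)]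
      unfold E1
      congr 1
      funext z
      congr 1
      rw [hcd]
      field_simp
      ring
    rw [← h2, integral_gaussianReal_eq_integral_smul (by norm_num)]
    rfl
  rw [e1]
  obtain ⟨P, hP⟩ : ∃ P : ℝ → ℝ, P = gaussianPDFReal c 1 := ⟨_, rfl⟩
  have hPi : Integrable P := by rw [hP]; exact integrable_gaussianPDFReal _ _
  have hkc : Continuous fun u => k (σ * u) := hc.comp (continuous_const.mul continuous_id)
  have hi : Integrable fun u => P u * k (σ * u) :=
    hPi.mul_bdd hkc.aestronglyMeasurable (Filter.Eventually.of_forall fun u => by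
      rw [Real.norm_eq_abs]; exact hb (σ * u))
  have hi2 : Integrable fun u => P (-u) * k (σ * u) :=
    hPi.comp_neg.mul_bdd hkc.aestronglyMeasurable (Filter.Eventually.of_forall fun u => by
      rw [Real.norm_eq_abs]; exact hb (σ * u))
  rw [← hP]
  have e2 : ∫ u, P u * k (σ * u) = -∫ u, P (-u) * k (σ * u) := by
    rw [← integral_neg_eq_self (fun u => P u * k (σ * u)), ← integral_neg]
    congr 1
    funext u
    rw [mul_neg, ho]
    ring
  have e3 : 2 * ∫ u, P u * k (σ * u) = ∫ u, (P u - P (-u)) * k (σ * u) := by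
    have e4 : ∫ u, (P u - P (-u)) * k (σ * u) =
        (∫ u, P u * k (σ * u)) - ∫ u, P (-u) * k (σ * u) := by
      rw [← integral_sub hi hi2]
      congr 1
      funext u
      ring
    rw [e4]
    linarith
  have e5 : 0 ≤ ∫ u, (P u - P (-u)) * k (σ * u) := by
    apply integral_nonneg
    intro u
    have hPv : ∀ u, P u = (√(2 * Real.pi * ((1 : NNReal) : ℝ)))⁻¹ *
        Real.exp (-(u - c) ^ 2 / (2 * ((1 : NNReal) : ℝ))) := by
      intro u
      rw [hP]; rfl
    have mono : ∀ u, 0 ≤ u → P (-u) ≤ P u := by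
      intro u hu
      rw [hPv, hPv]
      apply mul_le_mul_of_nonneg_left _ (by positivity)
      apply Real.exp_le_exp.2
      have h1 : ((1 : NNReal) : ℝ) = 1 := rfl
      rw [h1]
      nlinarith [mul_nonneg hu hc0]
    show 0 ≤ (P u - P (-u)) * k (σ * u)
    rcases le_total 0 u with hu | hu
    · exact mul_nonneg (by linarith [mono u hu]) (hp _ (mul_nonneg hσ.le hu))
    · have h1 := mono (-u) (by linarith)
      rw [neg_neg] at h1
      have h2 := hp (σ * -u) (mul_nonneg hσ.le (by linarith))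
      rw [mul_neg, ho] at h2
      nlinarith
  linarith

/-- the derivative of `S(v)/v` is negative -/
theorem key_neg (hST : St_STEIN) {h v : ℝ} (hh : 0 ≤ h) (hv : 0 < v) :
    v * (E1 (fun y => f2' (h + √v * y)) / 2) < E1 (fun y => f0' (h + √v * y)) := by
  obtain ⟨σ, hσ⟩ : ∃ σ : ℝ, σ = √v := ⟨_, rfl⟩
  have hσ0 : 0 < σ := by rw [hσ]; exact Real.sqrt_pos.2 hv
  have hσv : σ * σ = v := by rw [hσ]; exact Real.mul_self_sqrt hv.le
  rw [← hσ, ← hσv]
  -- Stein
  have hst := hST (fun z => f1' (h + σ * z)) (fun z => σ * f2' (h + σ * z)) (2 + 4 * σ) 0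
    (fun z => by
      have h1 : HasDerivAt (fun z : ℝ => h + σ * z) σ z := by
        simpa using ((hasDerivAt_id z).const_mul σ).const_add h
      have h2 := (hd_f1 (h + σ * z)).comp z h1
      rw [mul_comm] at h2
      exact h2)
    (continuous_const.mul (cont_f2.comp (continuous_const.add (continuous_const.mul continuous_id))))
    (fun z => by
      have := abs_f1 (h + σ * z)
      rw [zero_mul, Real.exp_zero, mul_one]
      linarith)
    (fun z => by
      have := abs_f2 (h + σ * z)
      rw [zero_mul, Real.exp_zero, mul_one, abs_mul, abs_of_pos hσ0]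
      nlinarith)
  have hst2 : E1 (fun z => σ * f2' (h + σ * z)) = σ * E1 (fun z => f2' (h + σ * z)) := by
    unfold E1
    exact integral_const_mul _ _
  rw [hst2] at hst
  -- the pieces
  have hlin : Continuous fun z : ℝ => h + σ * z :=
    continuous_const.add (continuous_const.mul continuous_id)
  have i0 : Integrable (fun z => f0' (h + σ * z)) (gaussianReal 0 1) :=
    int_bd (C := 1) (cont_f0.comp hlin) fun z => by
      unfold f0'; rw [abs_of_nonneg (sq_nonneg _)]; exact tanh_sq_le _
  have i1 : Integrable (fun z => f1' (h + σ * z)) (gaussianReal 0 1) :=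
    int_bd (cont_f1.comp hlin) fun z => abs_f1 _
  -- `y f1'(y)` is bounded by `2`
  have hyb : ∀ y : ℝ, |y * f1' y| ≤ 2 := by
    intro y
    have h1 := (even_ineq y).1
    have h2 := tanh_sq_le y
    have h3 : 0 ≤ y * Real.tanh y := by
      rcases le_total 0 y with hy | hy
      · exact mul_nonneg hy (tanh_nonneg hy)
      · have h5 := tanh_nonneg (x := -y) (by linarith)
        rw [Real.tanh_neg] at h5
        nlinarith
    have h4 : 0 ≤ y * Real.tanh y * (1 - Real.tanh y ^ 2) := mul_nonneg h3 (by linarith)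
    unfold f1'
    rw [show y * (2 * (Real.tanh y * (1 - Real.tanh y ^ 2))) =
      2 * (y * Real.tanh y * (1 - Real.tanh y ^ 2)) by ring, abs_of_nonneg (by linarith)]
    linarith
  have i2 : Integrable (fun z => (h + σ * z) * f1' (h + σ * z)) (gaussianReal 0 1) :=
    int_bd (hlin.mul (cont_f1.comp hlin)) fun z => hyb _
  -- the identity
  have e1 : σ * E1 (fun z => z * f1' (h + σ * z)) =
      E1 (fun z => (h + σ * z) * f1' (h + σ * z)) - h * E1 (fun z => f1' (h + σ * z)) := by
    unfold E1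
    rw [← integral_const_mul, ← integral_const_mul, ← integral_sub i2 (i1.const_mul h)]
    congr 1
    funext z
    ring
  have e2 : 0 ≤ E1 (fun z => f1' (h + σ * z)) := by
    refine odd_nonneg cont_f1 abs_f1 ?_ ?_ hh hσ0
    · intro x
      unfold f1'
      rw [Real.tanh_neg]
      ring
    · intro x hx
      unfold f1'
      have h1 := tanh_nonneg hx
      have h2 := tanh_sq_le x
      have : 0 ≤ Real.tanh x * (1 - Real.tanh x ^ 2) := mul_nonneg h1 (by linarith)
      linarith
  have e3 : 0 < E1 (fun z => f0' (h + σ * z) - (h + σ * z) * f1' (h + σ * z) / 2) := by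
    unfold E1
    rw [integral_pos_iff_support_of_nonneg]
    · have h1 : ({-(h / σ)} : Set ℝ)ᶜ ⊆ Function.support
          (fun z => f0' (h + σ * z) - (h + σ * z) * f1' (h + σ * z) / 2) := by
        intro z hz
        rw [Function.mem_support]
        have hy : h + σ * z ≠ 0 := by
          intro hy
          apply hz
          rw [mem_singleton_iff]
          field_simp
          linarith
        have h2 := (even_ineq (h + σ * z)).2 hy
        unfold f0' f1'
        apply ne_of_gt
        linarith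
      refine lt_of_lt_of_le ?_ (measure_mono h1)
      have : NullSingletonClass (gaussianReal 0 1) := nullSingletonClass_gaussianReal (by norm_num)
      rw [prob_compl_eq_one_sub (measurableSet_singleton _), measure_singleton, tsub_zero]
      exact one_pos
    · intro z
      have h2 := (even_ineq (h + σ * z)).1
      show 0 ≤ f0' (h + σ * z) - (h + σ * z) * f1' (h + σ * z) / 2
      unfold f0' f1'
      linarith
    · exact i0.sub (i2.div_const 2)
  have e4 : E1 (fun z => f0' (h + σ * z) - (h + σ * z) * f1' (h + σ * z) / 2) =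
      E1 (fun z => f0' (h + σ * z)) - E1 (fun z => (h + σ * z) * f1' (h + σ * z)) / 2 := by
    unfold E1
    rw [integral_sub i0 (i2.div_const 2), integral_div]
  rw [e4] at e3
  have e5 : 0 ≤ h * E1 (fun z => f1' (h + σ * z)) := mul_nonneg hh e2
  have e6 : σ * σ * (E1 (fun y => f2' (h + σ * y)) / 2) =
      (E1 (fun z => (h + σ * z) * f1' (h + σ * z)) - h * E1 (fun z => f1' (h + σ * z))) / 2 := by
    rw [← e1, hst]
    ring
  rw [e6]
  linarith

/-- AT-LG -/
theorem t_LG (hST : St_STEIN) (hH : St_HEAT) : St_LG := by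
  -- it suffices to treat `h ≥ 0`
  have main : ∀ β h q1 q2 : ℝ, 0 ≤ h → 0 < β → 0 < q1 → q1 < q2 →
      q1 = E1 (fun z => Real.tanh (h + √(2 * β ^ 2 * q1) * z) ^ 2) →
      q2 = E1 (fun z => Real.tanh (h + √(2 * β ^ 2 * q2) * z) ^ 2) → False := by
    intro β h q1 q2 hh hβ h1 h12 hq1 hq2
    obtain ⟨S, hS⟩ : ∃ S : ℝ → ℝ, S = fun v => E1 (fun y => f0' (h + √v * y)) := ⟨_, rfl⟩
    have hb : 0 < 2 * β ^ 2 := by positivity
    have hS1 : S (2 * β ^ 2 * q1) = q1 := by rw [hS]; exact hq1.symm
    have hS2 : S (2 * β ^ 2 * q2) = q2 := by rw [hS]; exact hq2.symm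
    have hd : ∀ v : ℝ, 0 < v → HasDerivAt (fun v => S v / v)
        ((E1 (fun y => f2' (h + √v * y)) / 2 * v - S v * 1) / v ^ 2) v := by
      intro v hv
      have h3 : HasDerivAt S (E1 (fun y => f2' (h + √v * y)) / 2) v := by
        rw [hS]; exact (hH f0' f1' f2' C2b_f).1 h v hv
      exact h3.div (hasDerivAt_id v) hv.ne'
    have hanti : StrictAntiOn (fun v => S v / v) (Ioi 0) := by
      apply strictAntiOn_of_deriv_neg (convex_Ioi 0)
      · intro v hv
        exact (hd v hv).continuousAt.continuousWithinAt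
      · intro v hv
        rw [interior_Ioi] at hv
        have hv0 : 0 < v := hv
        rw [(hd v hv0).deriv]
        apply div_neg_of_neg_of_pos _ (by positivity)
        have := key_neg hST hh hv0
        rw [hS]
        simp only
        linarith
    have h4 := hanti (show 2 * β ^ 2 * q1 ∈ Ioi (0 : ℝ) from mul_pos hb h1)
      (show 2 * β ^ 2 * q2 ∈ Ioi (0 : ℝ) from mul_pos hb (h1.trans h12))
      (mul_lt_mul_of_pos_left h12 hb)
    simp only [hS1, hS2] at h4
    have e1 : q1 / (2 * β ^ 2 * q1) = 1 / (2 * β ^ 2) := by field_simp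
    have e2 : q2 / (2 * β ^ 2 * q2) = 1 / (2 * β ^ 2) := by
      have : q2 ≠ 0 := (h1.trans h12).ne'
      field_simp
    rw [e1, e2] at h4
    exact lt_irrefl _ h4
  intro β h q1 q2 hβ h1 h12 hq1 hq2
  rcases le_total 0 h with hh | hh
  · exact main β h q1 q2 hh hβ h1 h12 hq1 hq2
  · have sym : ∀ q, E1 (fun z => Real.tanh (-h + √(2 * β ^ 2 * q) * z) ^ 2) =
        E1 (fun z => Real.tanh (h + √(2 * β ^ 2 * q) * z) ^ 2) := by
      intro q
      rw [← E1_neg (fun z => Real.tanh (-h + √(2 * β ^ 2 * q) * z) ^ 2)]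
      congr 1
      funext z
      rw [show -h + √(2 * β ^ 2 * q) * -z = -(h + √(2 * β ^ 2 * q) * z) by ring, Real.tanh_neg,
        neg_sq]
    exact main β (-h) q1 q2 (by linarith) hβ h1 h12 (by rw [sym]; exact hq1)
      (by rw [sym]; exact hq2)

end Pool.TH70.AT
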